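import Pool.Agent.H34.TM.Const

/-!
Subgroup codes of size larger than `2 ^ n` in the powers of the fraction graph `E_{p/q}` for all
`p / q` above the reciprocal of the Prouhet–Thue–Morse constant.
-/

set_option autoImplicit false

namespace Pool.Agent.Results.MP_fc334d_co.ThueMorse

open Pool.Agent.H34.TM

/-- `H` is an independent set of the strong power `E_{a/b}^{⊠ n}`: every nonzero element has a
coordinate whose circular distance from `0` is at least `b` -/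
def Indep (a b n : ℕ) (H : AddSubgroup (Fin n → ZMod a)) : Prop :=
  ∀ x ∈ H, x ≠ 0 → ∃ i, b ≤ (x i).val ∧ b ≤ (-x i).val

/-- the subgroup Shannon capacity of `E_{a/b}` -/
noncomputable def groupCapacity (a b : ℕ) : ℝ :=
  ⨆ n : ℕ, ((sSup {k : ℕ | ∃ H : AddSubgroup (Fin (n + 1) → ZMod a), Nat.card H = k ∧
    Indep a b (n + 1) H} : ℕ) : ℝ) ^ ((1 : ℝ) / ((n : ℝ) + 1))

section code
variable (p q J : ℕ)

/-- the generator `p * (1, 2, 4, …, 2 ^ (2 ^ J - 1))` -/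
def gen : Fin (2 ^ J) → ZMod (F J * p) := fun i => ((p * 2 ^ (i : ℕ) : ℕ) : ZMod (F J * p))

lemma addOrderOf_gen (hp : 0 < p) : addOrderOf (gen p J) = F J := by
  have hF : 0 < F J := by unfold F; positivity
  rw [addOrderOf_eq_iff hF]
  constructor
  · ext i
    simp only [gen, Pi.smul_apply, Pi.zero_apply, nsmul_eq_mul]
    rw [← Nat.cast_mul, ← mul_assoc, ZMod.natCast_eq_zero_iff]
    exact Dvd.intro _ rfl
  · intro m hm hm0 hcon
    have h0 := congrFun hcon ⟨0, by positivity⟩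
    simp only [gen, Pi.smul_apply, Pi.zero_apply, nsmul_eq_mul, pow_zero, mul_one] at h0
    rw [← Nat.cast_mul, ZMod.natCast_eq_zero_iff] at h0
    have h1 : F J ∣ m := Nat.dvd_of_mul_dvd_mul_right hp h0
    exact absurd (Nat.le_of_dvd hm0 h1) (by omega)

lemma val_of (hp : 0 < p) (r : ℕ) (hr : r < F J) :
    ((p * r : ℕ) : ZMod (F J * p)).val = p * r := by
  apply ZMod.val_natCast_of_lt
  rw [mul_comm (F J)]
  exact (Nat.mul_lt_mul_left hp).2 hr

lemma indep_gen (hp : 0 < p) (h : q * F J ≤ p * M J) :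
    Indep (F J * p) (F J * q) (2 ^ J) (AddSubgroup.zmultiples (gen p J)) := by
  intro x hx hx0
  obtain ⟨k, rfl⟩ := AddSubgroup.mem_zmultiples_iff.1 hx
  have hFpos : 0 < F J := by unfold F; positivity
  have hk : ¬ (F J : ℤ) ∣ k := by
    rintro ⟨c, rfl⟩
    apply hx0
    have h0 := addOrderOf_nsmul_eq_zero (gen p J)
    rw [addOrderOf_gen p J hp] at h0
    have h1 : ((F J : ℤ) * c) • gen p J = c • ((F J : ℕ) • gen p J) := by
      rw [mul_comm (F J : ℤ) c, mul_zsmul, natCast_zsmul]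
    show ((F J : ℤ) * c) • gen p J = 0
    rw [h1, h0, smul_zero]
  obtain ⟨i, hi, h1, h2⟩ := orbit J k hk
  set r := (2 ^ i * k) % F J with hr
  have hM : 1 ≤ M J := M_pos J
  have hr0 : 0 ≤ r := by omega
  have hrF : r < F J := Int.emod_lt_of_pos _ (by exact_mod_cast hFpos)
  obtain ⟨s, hs⟩ := Int.eq_ofNat_of_zero_le hr0
  have hx1 : (k • gen p J) ⟨i, hi⟩ = ((p * s : ℕ) : ZMod (F J * p)) := by
    simp only [gen, Pi.smul_apply, zsmul_eq_mul]
    have e1 : ((k : ℤ) : ZMod (F J * p)) * ((p * 2 ^ i : ℕ) : ZMod (F J * p)) =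
        ((p * (2 ^ i * k) : ℤ) : ZMod (F J * p)) := by push_cast; ring
    have e2 : ((p * s : ℕ) : ZMod (F J * p)) = ((p * r : ℤ) : ZMod (F J * p)) := by
      rw [hs]; push_cast; ring
    rw [e1, e2, ZMod.intCast_eq_intCast_iff]
    push_cast
    rw [mul_comm (F J : ℤ)]
    exact (Int.ModEq.mul_left' (Int.mod_modEq _ _)).symm
  have hsF : s < F J := by omega
  have hs0 : 0 < s := by omega
  have hx2 : -(k • gen p J) ⟨i, hi⟩ = ((p * (F J - s) : ℕ) : ZMod (F J * p)) := by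
    rw [hx1, neg_eq_iff_add_eq_zero, ← Nat.cast_add, ZMod.natCast_eq_zero_iff, ← mul_add]
    have : s + (F J - s) = F J := by omega
    rw [this, mul_comm]
  refine ⟨⟨i, hi⟩, ?_, ?_⟩
  · rw [hx1, val_of p J hp s hsF]
    calc F J * q = q * F J := mul_comm _ _
      _ ≤ p * M J := h
      _ ≤ p * s := Nat.mul_le_mul_left _ (by omega)
  · rw [hx2, val_of p J hp (F J - s) (by omega)]
    calc F J * q = q * F J := mul_comm _ _
      _ ≤ p * M J := h
      _ ≤ p * (F J - s) := Nat.mul_le_mul_left _ (by omega)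

end code

/-- the packing bound -/
lemma card_le (a b n : ℕ) (ha : 0 < a) (hba : b ≤ a) (H : AddSubgroup (Fin n → ZMod a))
    (h : Indep a b n H) : Nat.card H * b ^ n ≤ a ^ n := by
  have : NeZero a := ⟨ha.ne'⟩
  have hinj : Function.Injective (fun z : H × (Fin n → Fin b) =>
      (fun i => (z.1 : Fin n → ZMod a) i + ((z.2 i : ℕ) : ZMod a) : Fin n → ZMod a)) := by
    rintro ⟨⟨x, hx⟩, u⟩ ⟨⟨y, hy⟩, v⟩ hz
    have hz' : ∀ i, x i + ((u i : ℕ) : ZMod a) = y i + ((v i : ℕ) : ZMod a) :=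
      fun i => congrFun hz i
    have hxy : x = y := by
      by_contra hne
      obtain ⟨i, h1, h2⟩ := h (x - y) (H.sub_mem hx hy) (sub_ne_zero.2 hne)
      simp only [Pi.sub_apply] at h1 h2
      rcases le_total (u i : ℕ) (v i : ℕ) with huv | huv
      · have e : x i - y i = (((v i : ℕ) - (u i : ℕ) : ℕ) : ZMod a) := by
          rw [Nat.cast_sub huv]
          linear_combination hz' i
        rw [e] at h1
        have := ZMod.val_natCast a ((v i : ℕ) - (u i : ℕ))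
        rw [this] at h1
        have h3 := Nat.mod_le ((v i : ℕ) - (u i : ℕ)) a
        have h4 := (v i).2
        omega
      · have e : -(x i - y i) = (((u i : ℕ) - (v i : ℕ) : ℕ) : ZMod a) := by
          rw [Nat.cast_sub huv]
          linear_combination -(hz' i)
        rw [e] at h2
        have := ZMod.val_natCast a ((u i : ℕ) - (v i : ℕ))
        rw [this] at h2
        have h3 := Nat.mod_le ((u i : ℕ) - (v i : ℕ)) a
        have h4 := (u i).2
        omega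
    subst hxy
    have huv : u = v := by
      funext i
      have h1 := hz' i
      have h2 : ((u i : ℕ) : ZMod a) = ((v i : ℕ) : ZMod a) := add_left_cancel h1
      have h3 := congrArg ZMod.val h2
      rw [ZMod.val_natCast_of_lt (lt_of_lt_of_le (u i).2 hba),
        ZMod.val_natCast_of_lt (lt_of_lt_of_le (v i).2 hba)] at h3
      exact Fin.ext h3
    rw [huv]
  have := Nat.card_le_card_of_injective _ hinj
  rw [Nat.card_prod, Nat.card_fun, Nat.card_fun] at this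
  simpa using this

/-- the sizes of the independent subgroups of `E_{a/b}^{⊠ n}` -/
def sizes (a b n : ℕ) : Set ℕ :=
  {k : ℕ | ∃ H : AddSubgroup (Fin n → ZMod a), Nat.card H = k ∧ Indep a b n H}

lemma size_le (a b n : ℕ) (ha : 0 < a) (hba : b ≤ a) (k : ℕ) (hk : k ∈ sizes a b n) :
    k * b ^ n ≤ a ^ n := by
  obtain ⟨H, rfl, h⟩ := hk
  exact card_le a b n ha hba H h

lemma sizes_bdd (a b n : ℕ) (ha : 0 < a) (hb : 0 < b) (hba : b ≤ a) : BddAbove (sizes a b n) := by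
  refine ⟨a ^ n, fun k hk => ?_⟩
  have h1 := size_le a b n ha hba k hk
  have h2 : 1 ≤ b ^ n := Nat.one_le_pow _ _ hb
  nlinarith

lemma sizes_nonempty (a b n : ℕ) : (sizes a b n).Nonempty := by
  refine ⟨1, ⊥, by simp, ?_⟩
  intro x hx hx0
  exact absurd (AddSubgroup.mem_bot.1 hx) hx0

lemma sSup_sizes (a b n : ℕ) (ha : 0 < a) (hb : 0 < b) (hba : b ≤ a) :
    sSup (sizes a b n) ∈ sizes a b n :=
  Nat.sSup_mem (sizes_nonempty a b n) (sizes_bdd a b n ha hb hba)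

lemma term_le (a b n : ℕ) (ha : 0 < a) (hb : 0 < b) (hba : b ≤ a) :
    ((sSup (sizes a b (n + 1)) : ℕ) : ℝ) ^ ((1 : ℝ) / ((n : ℝ) + 1)) ≤ (a : ℝ) / b := by
  have h1 := size_le a b (n + 1) ha hba _ (sSup_sizes a b (n + 1) ha hb hba)
  have hb' : (0 : ℝ) < b := by exact_mod_cast hb
  have h2 : ((sSup (sizes a b (n + 1)) : ℕ) : ℝ) ≤ ((a : ℝ) / b) ^ (n + 1) := by
    rw [div_pow, le_div_iff₀ (by positivity)]
    exact_mod_cast h1
  calc ((sSup (sizes a b (n + 1)) : ℕ) : ℝ) ^ ((1 : ℝ) / ((n : ℝ) + 1))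
      ≤ (((a : ℝ) / b) ^ (n + 1)) ^ ((1 : ℝ) / ((n : ℝ) + 1)) :=
        Real.rpow_le_rpow (by positivity) h2 (by positivity)
    _ = (a : ℝ) / b := by
        have h3 : ((n : ℝ) + 1) = ((n + 1 : ℕ) : ℝ) := by push_cast; ring
        rw [h3, one_div, Real.pow_rpow_inv_natCast (by positivity) (by omega)]

lemma capacity_le (a b : ℕ) (ha : 0 < a) (hb : 0 < b) (hba : b ≤ a) :
    groupCapacity a b ≤ (a : ℝ) / b :=
  ciSup_le (fun n => term_le a b n ha hb hba)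

lemma le_capacity (a b n : ℕ) (ha : 0 < a) (hb : 0 < b) (hba : b ≤ a) (k : ℕ)
    (hk : k ∈ sizes a b (n + 1)) :
    ((k : ℕ) : ℝ) ^ ((1 : ℝ) / ((n : ℝ) + 1)) ≤ groupCapacity a b := by
  have h1 : ((k : ℕ) : ℝ) ^ ((1 : ℝ) / ((n : ℝ) + 1)) ≤
      ((sSup (sizes a b (n + 1)) : ℕ) : ℝ) ^ ((1 : ℝ) / ((n : ℝ) + 1)) := by
    apply Real.rpow_le_rpow (by positivity) _ (by positivity)
    exact_mod_cast le_csSup (sizes_bdd a b (n + 1) ha hb hba) hk
  refine h1.trans ?_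
  exact le_ciSup (f := fun n : ℕ => ((sSup (sizes a b (n + 1)) : ℕ) : ℝ) ^
    ((1 : ℝ) / ((n : ℝ) + 1))) ⟨(a : ℝ) / b, by
      rintro _ ⟨m, rfl⟩
      exact term_le a b m ha hb hba⟩ n

/-- **Main theorem.** -/
theorem result :
    ((0.41244 : ℝ) < tau ∧ tau < 0.41247) ∧
    (∀ p q : ℕ, 0 < p → 0 < q → (q : ℝ) / p < tau →
      ∃ J : ℕ, ∃ H : AddSubgroup (Fin (2 ^ J) → ZMod ((2 ^ 2 ^ J + 1) * p)),
        IsAddCyclic H ∧ Nat.card H = 2 ^ 2 ^ J + 1 ∧
          Indep ((2 ^ 2 ^ J + 1) * p) ((2 ^ 2 ^ J + 1) * q) (2 ^ J) H) ∧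
    (∀ p q : ℕ, 0 < p → 0 < q → (q : ℝ) / p < tau →
      2 < ⨆ (a : ℕ) (b : ℕ) (_ : 0 < b ∧ a * q = b * p), groupCapacity a b) := by
  have main' : ∀ p q : ℕ, 0 < p → 0 < q → (q : ℝ) / p < tau →
      ∃ J : ℕ, ∃ H : AddSubgroup (Fin (2 ^ J) → ZMod (F J * p)),
        IsAddCyclic H ∧ Nat.card H = F J ∧ Indep (F J * p) (F J * q) (2 ^ J) H := by
    intro p q hp _ h
    obtain ⟨J, hJ⟩ := exists_level p q hp h
    refine ⟨J, AddSubgroup.zmultiples (gen p J), ?_, ?_, indep_gen p q J hp hJ⟩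
    · infer_instance
    · rw [Nat.card_zmultiples, addOrderOf_gen p J hp]
  have main : ∀ p q : ℕ, 0 < p → 0 < q → (q : ℝ) / p < tau →
      ∃ J : ℕ, ∃ H : AddSubgroup (Fin (2 ^ J) → ZMod ((2 ^ 2 ^ J + 1) * p)),
        IsAddCyclic H ∧ Nat.card H = 2 ^ 2 ^ J + 1 ∧
          Indep ((2 ^ 2 ^ J + 1) * p) ((2 ^ 2 ^ J + 1) * q) (2 ^ J) H := main'
  refine ⟨tau_bounds, main, ?_⟩
  intro p q hp hq h
  obtain ⟨J, H, -, hH, hI⟩ := main p q hp hq h
  have hqp : q ≤ p := by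
    have hp' : (0 : ℝ) < p := by exact_mod_cast hp
    have h1 := tau_bounds.2
    have h2 : (q : ℝ) / p < 1 := by linarith
    rw [div_lt_one hp'] at h2
    exact_mod_cast h2.le
  have hp' : (0 : ℝ) < p := by exact_mod_cast hp
  have hq' : (0 : ℝ) < q := by exact_mod_cast hq
  have hpos : (0 : ℝ) ≤ (p : ℝ) / q := by positivity
  have hbound : ∀ a b : ℕ, (0 < b ∧ a * q = b * p) → groupCapacity a b ≤ (p : ℝ) / q := by
    rintro a b ⟨hb, hab⟩
    have ha : 0 < a := by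
      rcases Nat.eq_zero_or_pos a with h0 | h0
      · subst h0
        have : 0 < b * p := Nat.mul_pos hb hp
        omega
      · exact h0
    have hba : b ≤ a := by
      by_contra hcon
      push Not at hcon
      have h1 : a * q < b * p := by
        calc a * q ≤ a * p := Nat.mul_le_mul_left _ hqp
          _ < b * p := (Nat.mul_lt_mul_right hp).2 hcon
      omega
    have h1 := capacity_le a b ha hb hba
    have hb' : (0 : ℝ) < b := by exact_mod_cast hb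
    have h2 : (a : ℝ) / b = p / q := by
      rw [div_eq_div_iff hb'.ne' hq'.ne']
      have : ((a * q : ℕ) : ℝ) = ((b * p : ℕ) : ℝ) := by rw [hab]
      push_cast at this
      linarith
    rw [← h2]
    exact h1
  have hinner : ∀ a b : ℕ, (⨆ (_ : 0 < b ∧ a * q = b * p), groupCapacity a b) ≤ (p : ℝ) / q :=
    fun a b => Real.iSup_le (fun hc => hbound a b hc) hpos
  have hmid : ∀ a : ℕ, (⨆ (b : ℕ) (_ : 0 < b ∧ a * q = b * p), groupCapacity a b) ≤ (p : ℝ) / q :=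
    fun a => Real.iSup_le (fun b => hinner a b) hpos
  have hF : 0 < 2 ^ 2 ^ J + 1 := by positivity
  have hPab : 0 < (2 ^ 2 ^ J + 1) * q ∧
      ((2 ^ 2 ^ J + 1) * p) * q = ((2 ^ 2 ^ J + 1) * q) * p :=
    ⟨Nat.mul_pos hF hq, by ring⟩
  have hle : groupCapacity ((2 ^ 2 ^ J + 1) * p) ((2 ^ 2 ^ J + 1) * q) ≤
      ⨆ (a : ℕ) (b : ℕ) (_ : 0 < b ∧ a * q = b * p), groupCapacity a b := by
    have e1 : groupCapacity ((2 ^ 2 ^ J + 1) * p) ((2 ^ 2 ^ J + 1) * q) ≤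
        ⨆ (_ : 0 < (2 ^ 2 ^ J + 1) * q ∧
          ((2 ^ 2 ^ J + 1) * p) * q = ((2 ^ 2 ^ J + 1) * q) * p),
          groupCapacity ((2 ^ 2 ^ J + 1) * p) ((2 ^ 2 ^ J + 1) * q) := by
      rw [ciSup_pos hPab]
    have e2 := le_ciSup (f := fun b : ℕ =>
      ⨆ (_ : 0 < b ∧ ((2 ^ 2 ^ J + 1) * p) * q = b * p), groupCapacity ((2 ^ 2 ^ J + 1) * p) b)
      ⟨(p : ℝ) / q, by rintro _ ⟨b, rfl⟩; exact hinner _ b⟩ ((2 ^ 2 ^ J + 1) * q)
    have e3 := le_ciSup (f := fun a : ℕ =>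
      ⨆ (b : ℕ) (_ : 0 < b ∧ a * q = b * p), groupCapacity a b)
      ⟨(p : ℝ) / q, by rintro _ ⟨a, rfl⟩; exact hmid a⟩ ((2 ^ 2 ^ J + 1) * p)
    exact e1.trans (e2.trans e3)
  refine lt_of_lt_of_le ?_ hle
  obtain ⟨n, hn⟩ : ∃ n, 2 ^ J = n + 1 := ⟨2 ^ J - 1, by
    have : 1 ≤ 2 ^ J := Nat.one_le_two_pow
    omega⟩
  have hmem : 2 ^ 2 ^ J + 1 ∈ sizes ((2 ^ 2 ^ J + 1) * p) ((2 ^ 2 ^ J + 1) * q) (2 ^ J) :=
    ⟨H, hH, hI⟩
  have hmem' : 2 ^ 2 ^ J + 1 ∈ sizes ((2 ^ 2 ^ J + 1) * p) ((2 ^ 2 ^ J + 1) * q) (n + 1) := by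
    rw [← hn]; exact hmem
  have h3 := le_capacity ((2 ^ 2 ^ J + 1) * p) ((2 ^ 2 ^ J + 1) * q) n
    (Nat.mul_pos hF hp) (Nat.mul_pos hF hq) (Nat.mul_le_mul_left _ hqp) _ hmem'
  refine lt_of_lt_of_le ?_ h3
  rw [hn]
  have h4 : (2 : ℝ) = ((2 : ℝ) ^ (n + 1)) ^ ((1 : ℝ) / ((n : ℝ) + 1)) := by
    have h5 : ((n : ℝ) + 1) = ((n + 1 : ℕ) : ℝ) := by push_cast; ring
    rw [h5, one_div, Real.pow_rpow_inv_natCast (by positivity) (by omega)]
  calc (2 : ℝ) = ((2 : ℝ) ^ (n + 1)) ^ ((1 : ℝ) / ((n : ℝ) + 1)) := h4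
    _ < (((2 ^ (n + 1) + 1 : ℕ) : ℝ)) ^ ((1 : ℝ) / ((n : ℝ) + 1)) := by
        apply Real.rpow_lt_rpow (by positivity) _ (by positivity)
        push_cast
        linarith

end Pool.Agent.Results.MP_fc334d_co.ThueMorse
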